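import Pool.Agent.H255R.PL.Alg

/-!
# Closures of subgroups of modules generated by one point: the case of division algebras at `p`
-/

namespace Pool.Agent.Results.MP_52423f_nt.DivisionAlgebras

open Pool.Agent.H255R.PL

/-- `E ⊗ ℚ_p` is a division algebra, for the ring `E` of endomorphisms of `A`: every nonzero
element of the `ℚ_p`-span of the elements of `E`, acting on `Lie(A) ⊗ ℚ_p`, is invertible. -/
def IsDivisionAt {p : ℕ} [Fact p.Prime] {n : ℕ} (A : AbVar p n) (E : Subring A.End) : Prop :=
  ∀ M ∈ Submodule.span ℚ_[p] (A.lieP '' (E : Set A.End)), M ≠ 0 → IsUnit M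

/-- Let `A` be an abelian variety over `ℚ`, let `E` be a ring of endomorphisms of `A` over `ℚ` such
that `E ⊗ ℚ_p` is a division algebra, and let `P ∈ A(ℚ)`. For every finitely generated subgroup `L`
of `A(ℚ)` all of whose elements have a nonzero multiple in `E P`, the closure of `L` in `A(ℚ_p)` has
`ℤ_p`-rank equal to the rank of `L`. -/
theorem result : ∀ (p : ℕ) [Fact p.Prime] (n : ℕ) (A : AbVar p n) (E : Subring A.End),
    IsDivisionAt A E → ∀ (P : A.Rat) (L : AddSubgroup A.Rat), L.FG →
      (∀ x ∈ L, ∃ N : ℕ, N ≠ 0 ∧ ∃ e ∈ E, N • x = e • P) →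
      HasZpRank p (A.closure L) (Module.finrank ℤ L) := by
  intro p _ n A E hE P L hL hx
  refine A.hasZpRank_of L hL fun m x hxi => ?_
  choose N hN e heE he using fun j => hx (x j) (x j).2
  refine A.indep P x hxi N hN e he fun c hc => ?_
  by_cases h0 : ∑ j, c j • A.lieP (e j) = 0
  · exact Or.inr h0
  · left
    have hu : IsUnit (∑ j, c j • A.lieP (e j)) := by
      refine hE _ (Submodule.sum_mem _ fun j _ => Submodule.smul_mem _ _
        (Submodule.subset_span ⟨e j, heE j, rfl⟩)) h0
    obtain ⟨u, hu⟩ := hu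
    rw [← hu] at hc
    have h1 := congrArg (fun y => (↑u⁻¹ : Matrix (Fin n) (Fin n) ℚ_[p]).mulVec y) hc
    simpa [Matrix.mulVec_mulVec] using h1

end Pool.Agent.Results.MP_52423f_nt.DivisionAlgebras
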