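import Pool.Agent.H255R.PL.Alg

/-!
# Closures of subgroups of modules of rank one over a field of endomorphisms
-/

namespace Pool.Agent.Results.MP_52423f_nt.RankOneModules

open Pool.Agent.H255R.PL Polynomial

/-- `P` is a generic point of `A` at `p`: no nonzero linear form on `Lie(A) ⊗ ℚ_p` whose
coefficients are algebraic over `ℚ` vanishes at the logarithm of `P`. By the `p`-adic analytic
subgroup theorem, every point of infinite order of `A(ℚ)` is generic, if `A` is simple over `ℚ`. -/
def IsGeneric {p : ℕ} [Fact p.Prime] {n : ℕ} (A : AbVar p n) (P : A.Rat) : Prop :=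
  ∀ c : Fin n → ℚ_[p], (∀ i, IsAlgebraic ℚ (c i)) → ∑ i, c i * A.log (A.incl P) i = 0 → c = 0

/-- Let `A` be an abelian variety over `ℚ`, let `φ` be an endomorphism of `A` over `ℚ`, and let
`P ∈ A(ℚ)` be a point which is generic at `p`. For every finitely generated subgroup `L` of `A(ℚ)`
all of whose elements have a nonzero multiple in `ℤ[φ] P`, the closure of `L` in `A(ℚ_p)` has
`ℤ_p`-rank equal to the rank of `L`. -/
theorem result : ∀ (p : ℕ) [Fact p.Prime] (n : ℕ) (A : AbVar p n) (φ : A.End) (P : A.Rat),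
    IsGeneric A P → ∀ L : AddSubgroup A.Rat, L.FG →
      (∀ x ∈ L, ∃ N : ℕ, N ≠ 0 ∧ ∃ f : ℤ[X], N • x = aeval φ f • P) →
      HasZpRank p (A.closure L) (Module.finrank ℤ L) := by
  intro p _ n A φ P hP L hL hx
  refine A.hasZpRank_of L hL fun m x hxi => ?_
  choose N hN f he using fun j => hx (x j) (x j).2
  refine A.indep P x hxi N hN (fun j => aeval φ (f j)) he fun c hc => Or.inr ?_
  have hlie : ∀ g : ℤ[X], A.lieP (aeval φ g) =
      aeval ((A.lie φ).map (algebraMap ℚ ℚ_[p])) (g.map (Int.castRingHom ℚ_[p])) := by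
    intro g
    have h1 : A.lie (aeval φ g) = aeval (A.lie φ) g := by
      have h := Polynomial.hom_eval₂ g (algebraMap ℤ A.End) A.lie φ
      rw [aeval_def, aeval_def, h]
      congr 1
      exact Subsingleton.elim _ _
    have h2 : ((aeval (A.lie φ) g).map (algebraMap ℚ ℚ_[p]) : Matrix (Fin n) (Fin n) ℚ_[p]) =
        aeval ((A.lie φ).map (algebraMap ℚ ℚ_[p])) g := by
      have h := Polynomial.hom_eval₂ g (algebraMap ℤ (Matrix (Fin n) (Fin n) ℚ))
        ((algebraMap ℚ ℚ_[p]).mapMatrix) (A.lie φ)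
      rw [aeval_def, aeval_def]
      refine h.trans ?_
      congr 1
      exact Subsingleton.elim _ _
    rw [AbVar.lieP, h1, h2]
    rw [show (Int.castRingHom ℚ_[p]) = algebraMap ℤ ℚ_[p] from Subsingleton.elim _ _,
      aeval_map_algebraMap]
  have hsum : ∑ j, c j • A.lieP (aeval φ (f j)) =
      aeval ((A.lie φ).map (algebraMap ℚ ℚ_[p]))
        (∑ j, C (c j) * (f j).map (Int.castRingHom ℚ_[p])) := by
    rw [map_sum]
    refine Finset.sum_congr rfl fun j _ => ?_
    rw [hlie, map_mul, aeval_C, Algebra.smul_def]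
  rw [hsum] at hc ⊢
  exact AbVar.aeval_eq_zero (A.lie φ) _ hP _ hc

end Pool.Agent.Results.MP_52423f_nt.RankOneModules
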